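import Mathlib
import Pool.Agent.Lib.MP_70f607_gt.Main

set_option autoImplicit false

namespace Pool.Agent.Results.MP_70f607_gt.NotProvable

/-- **ZFC does not prove that `S₁(C_Γ, C_Ω)` implies `S₁(Γ, Ω)` for sets of irrationals.**

There are a countable transitive model `N` of ZFC and a set `X` in `N` of points of the Baire space
such that in `N` the space `X` satisfies the selection principle `S₁(Γ, Ω)` for covers by closed
(hence for covers by clopen) sets, but not for covers by open sets. -/
theorem result : ∃ N : Set ZFSet.{0}, N.Countable ∧ SymExt.IsZFC N ∧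
    ∃ X ∈ N, (∀ x ∈ X, SymExt.IsPoint x) ∧
      SymExt.SelOne N X (SymExt.ClosedSub X) ∧ ¬ SymExt.SelOne N X (SymExt.OpenSub X) := by
  obtain ⟨N, h1, h2, X, hX, h3, h4, _, h5⟩ := SymExt.GO.main
  exact ⟨N, h1, h2, X, hX, h3, h4, h5⟩

end Pool.Agent.Results.MP_70f607_gt.NotProvable
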